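import Mathlib
import Pool.Agent.H.MP_1efffb_co.Syl

namespace Pool.Agent.Results.MP_1efffb_co.Four

open Finset Matrix

def IsNormHadamard {n : ℕ} (H : Matrix (Fin n) (Fin n) ℤ) : Prop :=
  (∀ i j, H i j = 1 ∨ H i j = -1) ∧ H * Hᵀ = (n : ℤ) • (1 : Matrix (Fin n) (Fin n) ℤ) ∧
    Hᵀ * H = (n : ℤ) • (1 : Matrix (Fin n) (Fin n) ℤ) ∧
    ∀ i j, (i.val = 0 ∨ j.val = 0) → H i j = 1

def diam {ι : Type} [Fintype ι] (A : Finset (ι → ℤ)) : ℕ :=
  A.sup fun x => A.sup fun y => hammingDist x y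

def DiamMaximal {ι : Type} [Fintype ι] (A : Finset (ι → ℤ)) : Prop :=
  ∀ x : ι → ℤ, (∀ i, x i = 1 ∨ x i = -1) → x ∉ A → diam A < diam (insert x A)

def cols {n : ℕ} (H : Matrix (Fin n) (Fin n) ℤ) (r : ℕ) :
    Finset ({i : Fin n // r ≤ i.val} → ℤ) :=
  univ.image fun j => fun i => H i.1 j

open Pool.Agent.H.MP_1efffb_co

theorem result : ∃ r : ℕ, ∀ n₀ : ℕ, ∃ n : ℕ, n₀ ≤ n ∧ r < n ∧
    ∃ H : Matrix (Fin n) (Fin n) ℤ, IsNormHadamard H ∧ ¬ DiamMaximal (cols H r) := by
  refine ⟨4, fun n₀ => ?_⟩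
  set k := n₀ + 1 with hk
  have h1 : k < 2 ^ k := Nat.lt_two_pow_self
  have h2 : 2 ≤ 2 ^ k := by
    calc 2 = 2 ^ 1 := rfl
      _ ≤ 2 ^ k := Nat.pow_le_pow_right (by norm_num) (by omega)
  have h2' : (2 : ℤ) ≤ 2 ^ k := by exact_mod_cast h2
  refine ⟨4 * 2 ^ k, by omega, by omega, Matrix.of fun i j => hh k i j, ⟨fun i j => hh_pm _ _ _,
    ?_, ?_, ?_⟩, fun hmax => ?_⟩
  · ext i j
    simp only [mul_apply, transpose_apply, of_apply, Matrix.smul_apply, Matrix.one_apply,
      smul_eq_mul]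
    rw [Fin.sum_univ_eq_sum_range (fun t => hh k i t * hh k j t), hh_row k i j i.2 j.2]
    simp [Fin.ext_iff]
  · ext i j
    simp only [mul_apply, transpose_apply, of_apply, Matrix.smul_apply, Matrix.one_apply,
      smul_eq_mul]
    rw [Fin.sum_univ_eq_sum_range (fun t => hh k t i * hh k t j), hh_col k i j i.2 j.2]
    simp [Fin.ext_iff]
  · rintro i j (h | h)
    · simp [hh, h, syl_zero]
    · simp [hh, h, syl_symm _ _ 0, syl_zero]
  · set A := cols (Matrix.of fun i j : Fin (4 * 2 ^ k) => hh k i j) 4 with hA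
    have hcard : (Fintype.card {i : Fin (4 * 2 ^ k) // 4 ≤ i.val} : ℤ) = 4 * 2 ^ k - 4 := by
      have := sum_sub (4 * 2 ^ k) (by omega) (fun _ => 1)
      simpa using this
    set x : {i : Fin (4 * 2 ^ k) // 4 ≤ i.val} → ℤ := fun i => xx i.1.val with hx
    have hxpm : ∀ i, x i = 1 ∨ x i = -1 := fun i => by
      simp only [hx, xx]; split_ifs <;> simp
    have memA : ∀ y, y ∈ A ↔ ∃ j : Fin (4 * 2 ^ k), (fun i => hh k i.1.val j) = y := by
      intro y; simp [hA, cols]
    have hd : ∀ j : Fin (4 * 2 ^ k), 4 * 2 ^ k - 4 - 2 * (hammingDist x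
        (fun i => hh k i.1.val j) : ℤ) = if j.val / 4 = 0 then 2 * 2 ^ k - 2 else -2 := by
      intro j
      rw [← xx_col k j j.2, ← sum_sub (4 * 2 ^ k) (by omega) (fun i => xx i * hh k i j), ← hcard,
        ← ham _ _ hxpm (fun i => hh_pm _ _ _)]
    have hD : 2 * 2 ^ k ≤ diam A := by
      have e := ham (fun i : {i : Fin (4 * 2 ^ k) // 4 ≤ i.val} => hh k i.1.val 0)
        (fun i => hh k i.1.val 4) (fun i => hh_pm _ _ _) (fun i => hh_pm _ _ _)
      rw [sum_sub (4 * 2 ^ k) (by omega) (fun i => hh k i 0 * hh k i 4),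
        hh_col k 0 4 (by omega) (by omega), first_four, hcard, if_neg (by norm_num)] at e
      have e' : 2 * 2 ^ k ≤ hammingDist
          (fun i : {i : Fin (4 * 2 ^ k) // 4 ≤ i.val} => hh k i.1.val 0)
          (fun i => hh k i.1.val 4) := by
        have : (2 : ℤ) * 2 ^ k ≤ (hammingDist
          (fun i : {i : Fin (4 * 2 ^ k) // 4 ≤ i.val} => hh k i.1.val 0)
          (fun i => hh k i.1.val 4) : ℤ) := by linarith
        exact_mod_cast this
      refine le_trans e' (le_trans ?_ (le_sup (f := fun x => A.sup fun y => hammingDist x y)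
        ((memA _).2 ⟨⟨0, by omega⟩, rfl⟩)))
      exact le_sup (f := fun y => hammingDist _ y) ((memA _).2 ⟨⟨4, by omega⟩, rfl⟩)
    have hxd : ∀ y ∈ A, hammingDist x y ≤ diam A := by
      intro y hy
      obtain ⟨j, rfl⟩ := (memA y).1 hy
      refine le_trans ?_ hD
      have := hd j
      have : (hammingDist x (fun i => hh k i.1.val j) : ℤ) ≤ 2 * 2 ^ k := by
        split_ifs at this <;> linarith
      exact_mod_cast this
    have hxA : x ∉ A := by
      intro hy
      obtain ⟨j, hj⟩ := (memA x).1 hy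
      have := hd j
      rw [hj, hammingDist_self] at this
      split_ifs at this <;> push_cast at this <;> linarith
    refine absurd (hmax x hxpm hxA) (not_lt.2 ?_)
    refine Finset.sup_le (fun a ha => Finset.sup_le (fun b hb => ?_))
    rcases mem_insert.1 ha with rfl | ha <;> rcases mem_insert.1 hb with rfl | hb
    · simp
    · exact hxd b hb
    · rw [hammingDist_comm]; exact hxd a ha
    · exact le_trans (le_sup (f := fun y => hammingDist a y) hb)
        (le_sup (f := fun x => A.sup fun y => hammingDist x y) ha)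

end Pool.Agent.Results.MP_1efffb_co.Four
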